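import Mathlib
import Pool.Agent.H4.StR

set_option autoImplicit false

namespace Pool.Agent.Results.MP_b2c262_al.SteinbergHomology

open CategoryTheory Pool.Agent.H4.Tits

/-- **Vanishing of the first homology of `GL_n(O)` and `SL_n(O)` with coefficients in the Steinberg
module, for `n ≥ 4`.** Let `O` be (a ring isomorphic to) the Gaussian integers `ℤ[i]` or the
Eisenstein integers `ℤ[ω]`, `ω = exp (2πi/3)`, let `K` be its fraction field and let `n ≥ 4`. Let
`φ : G → GL_n(O)` be an injective homomorphism of groups whose image contains every matrix of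
determinant `1`: for instance the identity map of `GL_n(O)`, or the inclusion
`SL_n(O) → GL_n(O)`. Then `H_1(G; St_n(K)) = 0`. Here `groupHomology` is Mathlib's group homology
and `steinberg φ K` is the Steinberg module `St_n(K)`, the reduced homology in degree `n - 2` of the
Tits building of `K ^ n` with integral coefficients, on which `GL_n(K)`, hence `GL_n(O)`, hence `G`
acts. -/
theorem result : ∀ (O : Type) [CommRing O],
    (IsoAdjoin O Complex.I ∨ IsoAdjoin O (Complex.exp (2 * Real.pi * Complex.I / 3))) →
    ∀ (K : Type) [Field K] [Algebra O K] [IsFractionRing O K] (n : ℕ), 4 ≤ n →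
    ∀ (G : Type) [Group G] (φ : G →* Matrix.GeneralLinearGroup (Fin n) O),
    Function.Injective φ →
    (∀ A : Matrix.GeneralLinearGroup (Fin n) O, Matrix.det A.val = 1 → A ∈ Set.range φ) →
    Limits.IsZero (groupHomology (Rep.of (steinberg φ K)) 1) := by
  intro O _ hO K _ _ _ n hn G _ φ hinj hdet
  obtain ⟨hd, ⟨E⟩⟩ := Pool.Agent.H4.euc_equiv hO
  exact Pool.Agent.H4.isZero_steinberg E n hn φ hinj hdet

end Pool.Agent.Results.MP_b2c262_al.SteinbergHomology
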